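import Pool.Agent.X125.Spec.Twelve

/-! Negative answer to MP_a3bfa4 Q1: a spectral self-affine measure without overlap which does not
come from a Hadamard triple. -/

set_option autoImplicit false
open MeasureTheory Matrix
open scoped ENNReal Real

namespace Pool.Agent.Results.MP_a3bfa4_an.NoHadamard

open Pool.Agent.X125.Spec

/-- Every complex eigenvalue of the integer matrix `R` has modulus greater than one. -/
def Expanding {d : ℕ} (R : Matrix (Fin d) (Fin d) ℤ) : Prop :=
  ∀ z : ℂ, (R.map (Int.cast : ℤ → ℂ)).charpoly.IsRoot z → 1 < ‖z‖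

/-- The affine map `x ↦ R⁻¹ (x + b)`. -/
noncomputable def tau {d : ℕ} (R : Matrix (Fin d) (Fin d) ℤ) (b : Fin d → ℤ) (x : Fin d → ℝ) :
    Fin d → ℝ :=
  (R.map (Int.cast : ℤ → ℝ))⁻¹ *ᵥ (x + fun i => (b i : ℝ))

/-- `μ` is the equal-weight self-affine measure `μ(R,B)`. -/
def IsSelfAffine {d : ℕ} (R : Matrix (Fin d) (Fin d) ℤ) (B : Finset (Fin d → ℤ))
    (μ : Measure (Fin d → ℝ)) : Prop :=
  IsProbabilityMeasure μ ∧ μ = ((B.card : ℝ≥0∞)⁻¹) • ∑ b ∈ B, μ.map (tau R b)

/-- `T` is the attractor `T(R,B)`. -/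
def IsAttractor {d : ℕ} (R : Matrix (Fin d) (Fin d) ℤ) (B : Finset (Fin d → ℤ))
    (T : Set (Fin d → ℝ)) : Prop :=
  IsCompact T ∧ T.Nonempty ∧ T = ⋃ b ∈ B, tau R b '' T

/-- The character `x ↦ e^{2π i ⟨l, x⟩}`. -/
noncomputable def expo {d : ℕ} (l x : Fin d → ℝ) : ℂ :=
  Complex.exp (2 * π * Complex.I * ((∑ i, l i * x i : ℝ) : ℂ))

/-- The exponentials with frequencies in a countable set `Λ` form an orthonormal basis of
`L²(μ)`: they are orthonormal, and a square integrable function orthogonal to all of them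
vanishes almost everywhere. -/
def IsSpectral {d : ℕ} (μ : Measure (Fin d → ℝ)) : Prop :=
  ∃ Λ : Set (Fin d → ℝ), Λ.Countable ∧
    (∀ l ∈ Λ, ∀ l' ∈ Λ, ∫ x, expo l x * (starRingEnd ℂ) (expo l' x) ∂μ
      = if l = l' then 1 else 0) ∧
    (∀ f : (Fin d → ℝ) → ℂ, MemLp f 2 μ →
      (∀ l ∈ Λ, ∫ x, f x * (starRingEnd ℂ) (expo l x) ∂μ = 0) → f =ᵐ[μ] 0)

/-- `(R,B,L)` is a Hadamard triple: `#L = #B` and the matrix
`N^{-1/2} (e^{2π i ⟨R⁻¹b, l⟩})_{l ∈ L, b ∈ B}` is unitary (its rows are orthonormal). -/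
def IsHadamardTriple {d : ℕ} (R : Matrix (Fin d) (Fin d) ℤ) (B L : Finset (Fin d → ℤ)) : Prop :=
  L.card = B.card ∧ ∀ l ∈ L, ∀ l' ∈ L,
    ∑ b ∈ B, expo ((R.map (Int.cast : ℤ → ℝ))⁻¹ *ᵥ (fun i => (b i : ℝ))) (fun i => (l i : ℝ)) *
      (starRingEnd ℂ) (expo ((R.map (Int.cast : ℤ → ℝ))⁻¹ *ᵥ (fun i => (b i : ℝ)))
        (fun i => (l' i : ℝ))) = if l = l' then (B.card : ℂ) else 0

/-- The matrix `(12)`. -/
def RR : Matrix (Fin 1) (Fin 1) ℤ := Matrix.of fun _ _ => 12

theorem RR_apply (i j : Fin 1) : RR i j = 12 := rfl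

/-- The digits. -/
def BB : Finset (Fin 1 → ℤ) := {(fun _ => 0), (fun _ => 1), (fun _ => 8), (fun _ => 9)}

/-- The embedding of the line. -/
noncomputable def emb : ℝ ≃ᵐ (Fin 1 → ℝ) := (MeasurableEquiv.funUnique (Fin 1) ℝ).symm

theorem emb_apply (x : ℝ) : emb x = fun _ => x := rfl

theorem RR_inv (w : Fin 1 → ℝ) : (RR.map (Int.cast : ℤ → ℝ))⁻¹ *ᵥ w = fun i => w i / 12 := by
  have h1 : RR.map (Int.cast : ℤ → ℝ) = (12 : ℝ) • (1 : Matrix (Fin 1) (Fin 1) ℝ) := by
    ext i j
    rw [Subsingleton.elim i j, Matrix.map_apply, RR_apply, Matrix.smul_apply, Matrix.one_apply_eq]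
    simp
  have h2 : (RR.map (Int.cast : ℤ → ℝ))⁻¹ = (12 : ℝ)⁻¹ • (1 : Matrix (Fin 1) (Fin 1) ℝ) := by
    apply Matrix.inv_eq_right_inv
    rw [h1, smul_mul_smul_comm, mul_one]
    norm_num
  rw [h2, Matrix.smul_mulVec, Matrix.one_mulVec]
  ext i
  simp only [Pi.smul_apply, smul_eq_mul]
  ring

theorem mem_BB (b : Fin 1 → ℤ) : b ∈ BB ↔ b 0 = 0 ∨ b 0 = 1 ∨ b 0 = 8 ∨ b 0 = 9 := by
  have key : ∀ c : ℤ, b = (fun _ => c) ↔ b 0 = c := by
    intro c
    constructor
    · intro h; rw [h]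
    · intro h; funext i; rw [Subsingleton.elim i 0, h]
  simp only [BB, Finset.mem_insert, Finset.mem_singleton, key]

theorem BB_card : BB.card = 4 := by decide

theorem sum_BB {M : Type*} [AddCommMonoid M] (F : (Fin 1 → ℤ) → M) : ∑ b ∈ BB, F b
    = F (fun _ => 0) + (F (fun _ => 1) + (F (fun _ => 8) + F (fun _ => 9))) := by
  unfold BB
  rw [Finset.sum_insert (by decide), Finset.sum_insert (by decide), Finset.sum_insert (by decide),
    Finset.sum_singleton]

theorem exp_eq_neg_one (z : ℤ) (h : Complex.exp (2 * π * Complex.I * ((z / 12 : ℝ) : ℂ)) = -1) :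
    ∃ n : ℤ, z = 12 * n + 6 := by
  have h1 : Complex.exp (2 * π * Complex.I * ((z / 12 : ℝ) : ℂ) - π * Complex.I) = 1 := by
    rw [Complex.exp_sub, h, Complex.exp_pi_mul_I]; norm_num
  obtain ⟨n, hn⟩ := Complex.exp_eq_one_iff.1 h1
  refine ⟨n, ?_⟩
  have hpi : (π : ℂ) ≠ 0 := by exact_mod_cast Real.pi_ne_zero
  have h2 : (2 * π * Complex.I) * (((z / 12 : ℝ) : ℂ) - 1 / 2 - n) = 0 := by
    linear_combination hn
  have h3 : (2 * (π : ℂ) * Complex.I) ≠ 0 := by
    simp [Complex.I_ne_zero, hpi]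
  have h4 := (mul_eq_zero.1 h2).resolve_left h3
  have h5 : ((z : ℂ)) = 12 * n + 6 := by
    push_cast at h4
    linear_combination 12 * h4
  exact_mod_cast h5

theorem zero_imp (z : ℤ) (h : ∑ b ∈ BB, Complex.exp (2 * π * Complex.I *
    (((b 0 : ℝ) / 12 * (z : ℝ) : ℝ) : ℂ)) = 0) : ∃ n : ℤ, z = 12 * n + 6 := by
  rw [sum_BB] at h
  simp only at h
  set u : ℂ := Complex.exp (2 * π * Complex.I * ((z / 12 : ℝ) : ℂ)) with hu
  set v : ℂ := Complex.exp (2 * π * Complex.I * ((8 * z / 12 : ℝ) : ℂ)) with hv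
  have e0 : Complex.exp (2 * π * Complex.I * ((((0 : ℤ) : ℝ) / 12 * (z : ℝ) : ℝ) : ℂ)) = 1 := by
    simp
  have e1 : Complex.exp (2 * π * Complex.I * ((((1 : ℤ) : ℝ) / 12 * (z : ℝ) : ℝ) : ℂ)) = u := by
    rw [hu]; congr 2; push_cast; ring
  have e8 : Complex.exp (2 * π * Complex.I * ((((8 : ℤ) : ℝ) / 12 * (z : ℝ) : ℝ) : ℂ)) = v := by
    rw [hv]; congr 2; push_cast; ring
  have e9 : Complex.exp (2 * π * Complex.I * ((((9 : ℤ) : ℝ) / 12 * (z : ℝ) : ℝ) : ℂ)) = u * v := by
    rw [hu, hv, ← Complex.exp_add]; congr 1; push_cast; ring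
  rw [e0, e1, e8, e9] at h
  have h1 : (1 + u) * (1 + v) = 0 := by linear_combination h
  rcases mul_eq_zero.1 h1 with h2 | h2
  · apply exp_eq_neg_one
    rw [← hu]; linear_combination h2
  · exfalso
    have h3 : Complex.exp (2 * π * Complex.I * (((8 * z : ℤ) / 12 : ℝ) : ℂ)) = -1 := by
      have : v = -1 := by linear_combination h2
      rw [← this, hv]; congr 2; push_cast; ring
    obtain ⟨n, hn⟩ := exp_eq_neg_one _ h3
    omega



theorem expo_sub {d : ℕ} (l l' x : Fin d → ℝ) :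
    expo l x * (starRingEnd ℂ) (expo l' x) = expo (l - l') x := by
  unfold expo
  rw [← Complex.exp_conj, ← Complex.exp_add]
  congr 1
  simp only [map_mul, Complex.conj_I, Complex.conj_ofReal, Complex.conj_ofNat]
  rw [← sub_eq_zero]
  have : (∑ i, (l - l') i * x i : ℝ) = (∑ i, l i * x i : ℝ) - (∑ i, l' i * x i : ℝ) := by
    rw [← Finset.sum_sub_distrib]
    apply Finset.sum_congr rfl
    intro i _
    simp only [Pi.sub_apply]; ring
  rw [this]
  push_cast
  ring

theorem expo_sub' {d : ℕ} (l l' x : Fin d → ℝ) :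
    expo x l * (starRingEnd ℂ) (expo x l') = expo x (l - l') := by
  have hc : ∀ a b : Fin d → ℝ, expo a b = expo b a := by
    intro a b
    unfold expo
    congr 3
    apply Finset.sum_congr rfl
    intro i _
    ring
  rw [hc x l, hc x l', hc x (l - l'), expo_sub]

/-- The digits as real numbers. -/
noncomputable def dig : Fin 4 → ℝ := ![0, 1, 8, 9]

theorem dig_BB (a : Fin 4) : ∃ b ∈ BB, ((b 0 : ℤ) : ℝ) = dig a := by
  fin_cases a
  · exact ⟨fun _ => 0, by rw [mem_BB]; left; rfl, by simp [dig]⟩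
  · exact ⟨fun _ => 1, by rw [mem_BB]; right; left; rfl, by simp [dig]⟩
  · exact ⟨fun _ => 8, by rw [mem_BB]; right; right; left; rfl, by simp [dig]⟩
  · exact ⟨fun _ => 9, by rw [mem_BB]; right; right; right; rfl, by simp [dig]⟩

theorem BB_dig (b : Fin 1 → ℤ) (hb : b ∈ BB) : ∃ a : Fin 4, ((b 0 : ℤ) : ℝ) = dig a := by
  rw [mem_BB] at hb
  rcases hb with h | h | h | h <;> rw [h]
  · exact ⟨0, by simp [dig]⟩
  · exact ⟨1, by simp [dig]⟩
  · exact ⟨2, by simp [dig]⟩
  · exact ⟨3, by simp [dig]⟩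

theorem coding_continuous : Continuous (coding (D := Fin 4) 12 dig) := by
  unfold coding
  apply continuous_tsum (u := fun j : ℕ => 9 / 12 ^ (j + 1))
  · intro j
    exact (continuous_of_discreteTopology.comp (continuous_apply j)).div_const _
  · exact (geom_hasSum (N := 12) (by norm_num) 9).summable
  · intro j ω
    rw [Real.norm_eq_abs, abs_div, abs_of_pos (show (0 : ℝ) < 12 ^ (j + 1) by positivity)]
    apply div_le_div_of_nonneg_right _ (by positivity)
    have : ∀ a : Fin 4, |dig a| ≤ 9 := by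
      intro a
      fin_cases a <;> simp [dig] <;> norm_num
    exact this _

/-- The attractor. -/
noncomputable def TT : Set (Fin 1 → ℝ) := Set.range (fun ω => emb (coding (D := Fin 4) 12 dig ω))

theorem tau_emb (b : Fin 1 → ℤ) (x : Fin 1 → ℝ) : tau RR b x = emb ((x 0 + (b 0 : ℤ)) / 12) := by
  unfold tau
  rw [RR_inv]
  funext i
  rw [Subsingleton.elim i 0]
  simp [emb_apply]

theorem TT_attractor : IsAttractor RR BB TT := by
  refine ⟨?_, ?_, ?_⟩
  · apply isCompact_range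
    have he : Continuous (fun x : ℝ => (emb x : Fin 1 → ℝ)) := by
      change Continuous (fun x : ℝ => (fun _ => x : Fin 1 → ℝ))
      fun_prop
    exact he.comp coding_continuous
  · exact ⟨_, ⟨fun _ => 0, rfl⟩⟩
  · ext x
    simp only [Set.mem_iUnion, Set.mem_image, TT, Set.mem_range]
    constructor
    · rintro ⟨ω, rfl⟩
      obtain ⟨b, hb, hbd⟩ := dig_BB (ω 0)
      refine ⟨b, hb, emb (coding 12 dig (fun n => ω (n + 1))), ⟨_, rfl⟩, ?_⟩
      rw [tau_emb, hbd]
      have : ω = cons (ω 0, fun n => ω (n + 1)) := by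
        funext n
        cases n with
        | zero => rfl
        | succ n => rfl
      conv_rhs => rw [this, coding_cons (by norm_num)]
      rfl
    · rintro ⟨b, hb, y, ⟨ω, rfl⟩, rfl⟩
      obtain ⟨a, ha⟩ := BB_dig b hb
      refine ⟨cons (a, ω), ?_⟩
      rw [tau_emb, coding_cons (by norm_num), ha]
      rfl

theorem TT_bound (x : Fin 1 → ℝ) (hx : x ∈ TT) : 0 ≤ x 0 ∧ x 0 ≤ 9 / 11 := by
  obtain ⟨ω, rfl⟩ := hx
  have h1 := le_coding (N := 12) (by norm_num) dig 0
    (by intro a; fin_cases a <;> simp [dig]) ω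
  have h2 := coding_le (N := 12) (by norm_num) dig 9
    (by intro a; fin_cases a <;> simp [dig] <;> norm_num) ω
  norm_num at h1 h2
  exact ⟨h1, h2⟩

theorem TT_disjoint (b b' : Fin 1 → ℤ) (hne : b ≠ b') : tau RR b '' TT ∩ tau RR b' '' TT = ∅ := by
  rw [Set.eq_empty_iff_forall_notMem]
  rintro z ⟨⟨x, hx, hxz⟩, ⟨y, hy, hyz⟩⟩
  rw [tau_emb] at hxz hyz
  have h1 := TT_bound x hx
  have h2 := TT_bound y hy
  have h3 : (x 0 + (b 0 : ℤ)) / 12 = (y 0 + (b' 0 : ℤ)) / 12 := by
    have := hxz.trans hyz.symm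
    exact congrFun this 0
  have hne' : b 0 ≠ b' 0 := by
    intro h
    apply hne
    funext i
    rw [Subsingleton.elim i 0, h]
  have h4 : x 0 - y 0 = ((b' 0 - b 0 : ℤ) : ℝ) := by
    push_cast; linarith
  have h5 : (1 : ℤ) ≤ |b' 0 - b 0| := by
    apply Int.one_le_abs
    omega
  have h6 : (1 : ℝ) ≤ |((b' 0 - b 0 : ℤ) : ℝ)| := by exact_mod_cast h5
  rw [← h4] at h6
  have h7 : |x 0 - y 0| ≤ 9 / 11 := by
    rw [abs_le]; constructor <;> linarith [h1.1, h1.2, h2.1, h2.2]
  linarith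

/-- Negative answer to the question. There are, already on the line, an expanding integer matrix
`R`, a digit set `B` with pairwise incongruent elements modulo `R ℤ`, `0 ∈ B`, which generates `ℤ`
and with `2 ≤ #B < |det R|`, and a self-affine measure `μ = μ(R,B)` which is spectral and has
no overlap (the pieces `τ_b(T)` of the attractor are even pairwise disjoint), although no
`L ⊂ ℤ` makes `(R,B,L)` a Hadamard triple. -/
theorem result :
    ∃ (R : Matrix (Fin 1) (Fin 1) ℤ) (B : Finset (Fin 1 → ℤ)) (μ : Measure (Fin 1 → ℝ))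
      (T : Set (Fin 1 → ℝ)),
      Expanding R ∧ 2 ≤ B.card ∧ (B.card : ℤ) < |R.det| ∧ (0 : Fin 1 → ℤ) ∈ B ∧
      (∀ b ∈ B, ∀ b' ∈ B, b ≠ b' → ¬ ∃ v : Fin 1 → ℤ, R *ᵥ v = b - b') ∧
      AddSubgroup.closure (B : Set (Fin 1 → ℤ)) = ⊤ ∧
      IsSelfAffine R B μ ∧ IsAttractor R B T ∧
      (∀ b ∈ B, ∀ b' ∈ B, b ≠ b' → tau R b '' T ∩ tau R b' '' T = ∅) ∧
      (∀ b ∈ B, ∀ b' ∈ B, b ≠ b' → μ (tau R b '' T ∩ tau R b' '' T) = 0) ∧
      IsSpectral μ ∧ ¬ ∃ L : Finset (Fin 1 → ℤ), IsHadamardTriple R B L := by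
  have hB4 : (BB.card : ℝ≥0∞) = 4 := by rw [BB_card]; norm_num
  have hRdet : RR.det = 12 := by
    rw [Matrix.det_fin_one]; rfl
  have hmul : ∀ v : Fin 1 → ℤ, RR *ᵥ v = (12 : ℤ) • v := by
    intro v
    have hR : RR = (12 : ℤ) • (1 : Matrix (Fin 1) (Fin 1) ℤ) := by
      ext i j
      rw [Subsingleton.elim i j, RR_apply, Matrix.smul_apply, Matrix.one_apply_eq]
      simp
    rw [hR, Matrix.smul_mulVec, Matrix.one_mulVec]
  have hprob : IsProbabilityMeasure (Twelve.mu.map emb) :=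
    Measure.isProbabilityMeasure_map emb.measurable.aemeasurable
  refine ⟨RR, BB, Twelve.mu.map emb, TT, ?_, ?_, ?_, ?_, ?_, ?_, ⟨hprob, ?_⟩, TT_attractor,
    fun b _ b' _ h => TT_disjoint b b' h, ?_, ?_, ?_⟩
  · -- expanding
    intro z hz
    have h1 : RR.map (Int.cast : ℤ → ℂ) = (12 : ℂ) • (1 : Matrix (Fin 1) (Fin 1) ℂ) := by
      ext i j
      rw [Subsingleton.elim i j, Matrix.map_apply, RR_apply, Matrix.smul_apply, Matrix.one_apply_eq]
      simp
    have h2 : z = 12 := by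
      rw [Polynomial.IsRoot.def, Matrix.eval_charpoly, h1] at hz
      simp at hz
      linear_combination hz
    rw [h2]; norm_num
  · rw [BB_card]; norm_num
  · rw [BB_card, hRdet]; norm_num
  · rw [mem_BB]; left; rfl
  · -- simple digits
    intro b hb b' hb' hne ⟨v, hv⟩
    rw [hmul] at hv
    have h0 := congrFun hv 0
    simp only [Pi.smul_apply, Pi.sub_apply, smul_eq_mul] at h0
    rw [mem_BB] at hb hb'
    have hne' : b 0 ≠ b' 0 := by
      intro h
      apply hne
      funext i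
      rw [Subsingleton.elim i 0, h]
    omega
  · -- generation
    rw [eq_top_iff]
    intro w _
    have h1 : (fun _ => 1 : Fin 1 → ℤ) ∈ AddSubgroup.closure (BB : Set (Fin 1 → ℤ)) := by
      apply AddSubgroup.subset_closure
      rw [Finset.mem_coe, mem_BB]; right; left; rfl
    have h2 : w = w 0 • (fun _ => 1 : Fin 1 → ℤ) := by
      funext i
      rw [Subsingleton.elim i 0]
      simp
    rw [h2]
    exact AddSubgroup.zsmul_mem _ h1 _
  · -- self-similarity
    rw [hB4]
    have hmapb : ∀ b : Fin 1 → ℤ, (Twelve.mu.map emb).map (tau RR b)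
        = (Twelve.mu.map (fun x => (x + (b 0 : ℝ)) / 12)).map emb := by
      intro b
      have hm1 : Measurable (tau RR b) := by
        unfold tau
        simp only [RR_inv]
        fun_prop
      rw [Measure.map_map hm1 emb.measurable, Measure.map_map emb.measurable (by fun_prop)]
      congr 1
      funext x
      simp only [Function.comp, tau_emb]
      rfl
    simp only [hmapb]
    rw [sum_BB]
    conv_lhs => rw [Twelve.mu_eq]
    rw [Measure.map_smul]
    congr 1
    have hS : ∀ a : ℝ, Measurable (fun x : ℝ => (x + a) / 12) := fun a => by fun_prop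
    rw [Measure.map_add _ _ emb.measurable, Measure.map_add _ _ emb.measurable,
      Measure.map_add _ _ emb.measurable]
    norm_num
    rw [add_assoc, add_assoc]
  · intro b _ b' _ h
    rw [TT_disjoint b b' h]
    exact measure_empty
  · -- spectral
    have hint : ∀ t : Fin 1 → ℝ, ∫ x, expo t x ∂(Twelve.mu.map emb) = ehat Twelve.mu (t 0) := by
      intro t
      unfold expo
      rw [emb.measurableEmbedding.integral_map]
      unfold ehat ex
      apply integral_congr_ae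
      filter_upwards with x
      rw [Fin.sum_univ_one]
      rfl
    refine ⟨Set.range (fun i => fun _ : Fin 1 => Twelve.lam i), Set.countable_range _, ?_, ?_⟩
    · rintro _ ⟨i, rfl⟩ _ ⟨j, rfl⟩
      simp only [expo_sub]
      rw [hint]
      simp only [Pi.sub_apply]
      split_ifs with h
      · have h0 : Twelve.lam i = Twelve.lam j := congrFun h 0
        rw [h0, sub_self]
        unfold ehat; simp [ex_zero]
      · apply Twelve.mu_orth
        intro hij
        exact h (by rw [hij])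
    · intro f hf hfo
      have hf2 : MemLp (f ∘ emb) 2 Twelve.mu :=
        (memLp_map_measure_iff hf.1 emb.measurable.aemeasurable).1 hf
      have h0 : (f ∘ emb) =ᵐ[Twelve.mu] 0 := by
        apply Twelve.spectral_complete _ hf2
        intro i
        have := hfo (fun _ => Twelve.lam i) ⟨i, rfl⟩
        rw [emb.measurableEmbedding.integral_map] at this
        rw [← this]
        apply integral_congr_ae
        filter_upwards with x
        simp only [Function.comp]
        congr 1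
        rw [ex_neg]
        congr 1
        unfold ex expo
        rw [Fin.sum_univ_one]
        rfl
      change ∀ᵐ x ∂(Twelve.mu.map emb), f x = 0
      rw [emb.measurableEmbedding.ae_map_iff]
      exact h0
  · -- no Hadamard triple
    rintro ⟨L, hL, hLL⟩
    rw [BB_card] at hL
    obtain ⟨l1, l2, l3, h1, h2, h3, h12, h13, h23⟩ := Finset.two_lt_card_iff.1
      (by rw [hL]; norm_num : 2 < L.card)
    have key : ∀ l ∈ L, ∀ l' ∈ L, l ≠ l' → ∃ n : ℤ, l 0 - l' 0 = 12 * n + 6 := by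
      intro l hl l' hl' hne
      apply zero_imp
      have := hLL l hl l' hl'
      rw [if_neg hne] at this
      rw [← this]
      apply Finset.sum_congr rfl
      intro b _
      rw [expo_sub', RR_inv]
      unfold expo
      congr 2
      rw [Fin.sum_univ_one]
      simp only [Pi.sub_apply]
      push_cast
      ring
    obtain ⟨a, ha⟩ := key l1 h1 l2 h2 h12
    obtain ⟨b, hb⟩ := key l2 h2 l3 h3 h23
    obtain ⟨c, hc⟩ := key l1 h1 l3 h3 h13
    omega

end Pool.Agent.Results.MP_a3bfa4_an.NoHadamard
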